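import Pool.Agent.H47.KS.Targets

/-!
# ksu_modules FAA: size of the family of sets of sums
-/

set_option autoImplicit false

namespace Pool.Agent.H60.KSU

open Finset Pool.Agent.H47.KS Pool.Agent.H37.SP

/-- the set of the sums -/
def sums (p : ℕ) (x : ℤ × (Fin (2 * p) → ℤ)) : Finset ℤ :=
  ((univ : Finset (Fin (2 * p))).powersetCard p).image (fun P => x.1 + ∑ i ∈ P, x.2 i)

theorem pf_FAA : T_FAA := by
  classical
  intro p M hp
  refine ⟨((Icc (-((p : ℤ) * M)) (((p : ℤ) + 1) * M)) ×ˢ
    (Fintype.piFinset (fun _ : Fin (2 * p) => Icc (-(M : ℤ)) M))).image (sums p), ?_, ?_⟩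
  · intro T hT hsub
    obtain ⟨b, w, rfl⟩ := hT
    have hval : ∀ Q : Finset (Fin (2 * p)), Q.card = p → 0 ≤ b + ∑ i ∈ Q, w i ∧
        b + ∑ i ∈ Q, w i ≤ M := by
      intro Q hQ
      have h1 : b + ∑ i ∈ Q, w i ∈ ((univ : Finset (Fin (2 * p))).powersetCard p).image
          (fun P => b + ∑ i ∈ P, w i) := mem_image.2 ⟨Q, mem_powersetCard.2 ⟨subset_univ _, hQ⟩, rfl⟩
      exact mem_Icc.1 (hsub h1)
    let i₀ : Fin (2 * p) := ⟨0, by omega⟩
    have hw : ∀ i, |w i - w i₀| ≤ (M : ℤ) := by
      intro i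
      by_cases hi : i = i₀
      · rw [hi]
        simp
      · have h1 : p - 1 ≤ ((univ : Finset (Fin (2 * p))) \ {i, i₀}).card := by
          rw [card_sdiff_of_subset (subset_univ _), card_pair hi, card_univ, Fintype.card_fin]
          omega
        obtain ⟨R, hR, hRc⟩ := exists_subset_card_eq h1
        have hiR : i ∉ R := fun h => (mem_sdiff.1 (hR h)).2 (by simp)
        have hi0R : i₀ ∉ R := fun h => (mem_sdiff.1 (hR h)).2 (by simp)
        have e1 := hval (insert i R) (by rw [card_insert_of_notMem hiR, hRc]; omega)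
        have e2 := hval (insert i₀ R) (by rw [card_insert_of_notMem hi0R, hRc]; omega)
        rw [sum_insert hiR] at e1
        rw [sum_insert hi0R] at e2
        rw [abs_le]
        constructor <;> omega
    have hsum : ∀ Q : Finset (Fin (2 * p)), Q.card = p →
        b + (p : ℤ) * w i₀ + ∑ i ∈ Q, (w i - w i₀) = b + ∑ i ∈ Q, w i := by
      intro Q hQ
      rw [sum_sub_distrib, sum_const, hQ, nsmul_eq_mul]
      ring
    rw [mem_image]
    refine ⟨(b + (p : ℤ) * w i₀, fun i => w i - w i₀), ?_, ?_⟩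
    · rw [mem_product]
      refine ⟨?_, ?_⟩
      · have h1 : p ≤ (univ : Finset (Fin (2 * p))).card := by
          rw [card_univ, Fintype.card_fin]
          omega
        obtain ⟨Q, -, hQ⟩ := exists_subset_card_eq h1
        have e1 := hval Q hQ
        rw [← hsum Q hQ] at e1
        have e2 : |∑ i ∈ Q, (w i - w i₀)| ≤ (p : ℤ) * M := by
          refine (abs_sum_le_sum_abs _ _).trans ?_
          refine (sum_le_sum fun i _ => hw i).trans ?_
          rw [sum_const, hQ, nsmul_eq_mul]
        rw [abs_le] at e2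
        rw [mem_Icc]
        have e3 : ((p : ℤ) + 1) * M = p * M + M := by ring
        constructor <;> simp only <;> linarith
      · rw [Fintype.mem_piFinset]
        intro i
        rw [mem_Icc]
        exact abs_le.1 (hw i)
    · unfold sums
      refine image_congr fun Q hQ => ?_
      exact hsum Q (mem_powersetCard.1 hQ).2
  · refine card_image_le.trans ?_
    rw [card_product, Fintype.card_piFinset]
    simp only [Int.card_Icc, prod_const, card_univ, Fintype.card_fin]
    have e1 : (((p : ℤ) + 1) * M + 1 - -((p : ℤ) * M)).toNat = (2 * p + 1) * M + 1 := by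
      have : ((p : ℤ) + 1) * M + 1 - -((p : ℤ) * M) = (((2 * p + 1) * M + 1 : ℕ) : ℤ) := by
        push_cast
        ring
      rw [this, Int.toNat_natCast]
    have e2 : ((M : ℤ) + 1 - -(M : ℤ)).toNat = 2 * M + 1 := by omega
    rw [e1, e2, pow_succ', mul_comm]
    have h1 : (2 * p + 1) * M + 1 ≤ 3 * (p + 1) * (2 * M + 1) := by nlinarith
    have h2 : 2 * M + 1 ≤ 3 * (p + 1) * (2 * M + 1) := by nlinarith
    rw [mul_comm]
    exact Nat.mul_le_mul h1 (Nat.pow_le_pow_left h2 _)

end Pool.Agent.H60.KSU
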