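import Pool.Agent.H47.KS.Targets

/-!
# ksu_modules TUR: independent set in a sparse graph
-/

set_option autoImplicit false

namespace Pool.Agent.H60.KSU

open Finset Pool.Agent.H47.KS Pool.Agent.H37.SP

theorem greedy {N : ℕ} (G : SimpleGraph (Fin N)) (A : Finset (Fin N)) (q : ℕ) : ∀ (m : ℕ)
    (B : Finset (Fin N)), B ⊆ A → (∀ x ∈ B, dg G A x ≤ q) → m * (q + 1) ≤ B.card →
    ∃ I ⊆ B, I.card = m ∧ ∀ x ∈ I, ∀ y ∈ I, aa G x y = 0 := by
  classical
  intro m
  induction m with
  | zero =>
    intro B _ _ _
    exact ⟨∅, empty_subset _, rfl, fun x hx => absurd hx (notMem_empty x)⟩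
  | succ m ih =>
    intro B hBA hB hcard
    have hne : B.Nonempty := by
      rw [← card_pos]
      refine lt_of_lt_of_le ?_ hcard
      positivity
    obtain ⟨x, hx⟩ := hne
    set D := B.filter (fun y => aa G x y = 1) with hD
    have hDc : D.card ≤ q := by
      have h1 : (D.card : ℤ) = dg G B x := by
        unfold dg
        rw [hD, card_filter]
        push_cast
        refine sum_congr rfl fun y _ => ?_
        rcases aa_or G x y with h | h
        · rw [h]; simp
        · rw [h]; simp
      have h2 := dg_mono G hBA x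
      have h3 := hB x hx
      have h4 : (D.card : ℤ) ≤ q := by omega
      exact_mod_cast h4
    have hB' : m * (q + 1) ≤ (B \ insert x D).card := by
      have h1 := le_card_sdiff (insert x D) B
      have h2 := card_insert_le x D
      have h3 : (m + 1) * (q + 1) = m * (q + 1) + (q + 1) := by ring
      omega
    obtain ⟨I, hI, hIc, hII⟩ := ih (B \ insert x D) (sdiff_subset.trans hBA)
      (fun y hy => hB y (sdiff_subset hy)) hB'
    have hxI : x ∉ I := fun h => (mem_sdiff.1 (hI h)).2 (mem_insert_self _ _)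
    have h0 : ∀ y ∈ I, aa G x y = 0 := by
      intro y hy
      have h1 := mem_sdiff.1 (hI hy)
      rcases aa_or G x y with h | h
      · exact h
      · exact absurd (mem_insert_of_mem (mem_filter.2 ⟨h1.1, h⟩)) h1.2
    refine ⟨insert x I, ?_, ?_, ?_⟩
    · rw [insert_subset_iff]
      exact ⟨hx, hI.trans sdiff_subset⟩
    · rw [card_insert_of_notMem hxI, hIc]
    · intro a ha b hb
      rcases mem_insert.1 ha with ha | ha <;> rcases mem_insert.1 hb with hb | hb
      · rw [ha, hb]
        exact aa_self G x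
      · rw [ha]
        exact h0 b hb
      · rw [hb, aa_symm]
        exact h0 a ha
      · exact hII a ha b hb

theorem pf_TUR : T_TUR := by
  classical
  intro N G A E0 q m hE h4 hm
  set L := A.filter (fun x => ¬ dg G A x ≤ q) with hL
  set B := A.filter (fun x => dg G A x ≤ q) with hB
  have hsum : B.card + L.card = A.card := card_filter_add_card_filter_not _
  have h2 : ((q : ℤ) + 1) * L.card ≤ 2 * ee G A := by
    have h3 : ∑ x ∈ L, ((q : ℤ) + 1) ≤ ∑ x ∈ L, dg G A x := by
      refine sum_le_sum fun x hx => ?_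
      have := (mem_filter.1 hx).2
      omega
    have h5 : ∑ x ∈ L, dg G A x ≤ ∑ x ∈ A, dg G A x :=
      sum_le_sum_of_subset_of_nonneg (filter_subset _ _) fun x _ _ => dg_nonneg G A x
    have h6 : 2 * ee G A = ∑ x ∈ A, dg G A x := two_mul_ee G A
    rw [sum_const, nsmul_eq_mul] at h3
    rw [h6]
    calc ((q : ℤ) + 1) * L.card = L.card * ((q : ℤ) + 1) := mul_comm _ _
      _ ≤ _ := h3.trans h5
  have h7 : ((q : ℤ) + 1) * (2 * L.card) < ((q : ℤ) + 1) * A.card := by
    have h8 : (4 * (E0 : ℤ)) < (q + 1) * A.card := by exact_mod_cast h4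
    nlinarith
  have h9 : 2 * (L.card : ℤ) < A.card := lt_of_mul_lt_mul_left h7 (by positivity)
  have h10 : 2 * L.card < A.card := by exact_mod_cast h9
  have h11 : m * (q + 1) ≤ B.card := by
    have : 2 * (m * (q + 1)) ≤ A.card := by
      have e : 2 * m * (q + 1) = 2 * (m * (q + 1)) := by ring
      omega
    omega
  obtain ⟨I, hI, hIc, hII⟩ := greedy G A q m B (filter_subset _ _)
    (fun x hx => (mem_filter.1 hx).2) h11
  exact ⟨I, hI.trans (filter_subset _ _), hIc, hII⟩

end Pool.Agent.H60.KSU
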